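import Pool.Agent.H18.GW.Targets2

/-! Row UE of gwd_modules: the laws of the explicit words. -/

set_option autoImplicit false

open scoped commutatorElement

namespace Pool.Agent.H44.GW

open Pool.Agent.H11.EL Pool.Agent.H11.KT Pool.Agent.H18.GW

theorem lift_gword {H : Type} [Group H] (u : FreeGroup (Fin 2)) (m : ℕ) (c : FreeGroup (Fin m))
    (f : Fin 2 → H) : FreeGroup.lift f (gword u m c) = FreeGroup.lift f u *
      FreeGroup.lift (fun i : Fin m =>
        f 0 ^ ((i : ℕ) + 1) * f 1 * (f 0 ^ ((i : ℕ) + 1))⁻¹) c := by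
  unfold gword
  rw [map_mul]
  congr 1
  have h : (FreeGroup.lift f).comp (FreeGroup.lift (fun i : Fin m =>
      FreeGroup.of 0 ^ ((i : ℕ) + 1) * FreeGroup.of 1 * (FreeGroup.of 0 ^ ((i : ℕ) + 1))⁻¹)) =
      FreeGroup.lift (fun i : Fin m =>
        f 0 ^ ((i : ℕ) + 1) * f 1 * (f 0 ^ ((i : ℕ) + 1))⁻¹) := by
    ext i
    simp
  exact DFunLike.congr_fun h c

theorem lift_mem {H : Type} [Group H] {m : ℕ} (Y : Subgroup H) (g : Fin m → H)
    (hg : ∀ i, g i ∈ Y) (z : FreeGroup (Fin m)) : FreeGroup.lift g z ∈ Y := by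
  induction z using FreeGroup.induction_on with
  | C1 => rw [map_one]; exact Y.one_mem
  | of i => rw [FreeGroup.lift_apply_of]; exact hg i
  | inv_of i h => rw [map_inv]; exact Y.inv_mem h
  | mul a b ha hb => rw [map_mul]; exact Y.mul_mem ha hb

theorem lift_mem_comm {H : Type} [Group H] {m : ℕ} (Y : Subgroup H) (g : Fin m → H)
    (hg : ∀ i, g i ∈ Y) (c : FreeGroup (Fin m)) (hc : c ∈ commutator (FreeGroup (Fin m))) :
    FreeGroup.lift g c ∈ ⁅Y, Y⁆ := by
  have h1 : FreeGroup.lift g c ∈ (commutator (FreeGroup (Fin m))).map (FreeGroup.lift g) :=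
    ⟨c, hc, rfl⟩
  rw [commutator_def, Subgroup.map_commutator] at h1
  have h2 : (⊤ : Subgroup (FreeGroup (Fin m))).map (FreeGroup.lift g) ≤ Y := by
    rintro _ ⟨z, -, rfl⟩
    exact lift_mem Y g hg z
  exact Subgroup.commutator_mono h2 h2 h1

theorem pf_UE : T_UE := by
  intro m c hc H _
  have hT : ∀ (a b : H) (i : ℕ), 1 ≤ i → i ≤ max m 2 → b ^ i * a * (b ^ i)⁻¹ ∈
      Subgroup.closure {g | ∃ i : ℕ, 1 ≤ i ∧ i ≤ max m 2 ∧ g = b ^ i * a * (b ^ i)⁻¹} :=
    fun a b i h1 h2 => Subgroup.subset_closure ⟨i, h1, h2, rfl⟩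
  have hlaw : ∀ (u : FreeGroup (Fin 2)), Law (gword u m c) H → ∀ a b : H,
      FreeGroup.lift ![b, a] u = (FreeGroup.lift (fun i : Fin m =>
        b ^ ((i : ℕ) + 1) * a * (b ^ ((i : ℕ) + 1))⁻¹) c)⁻¹ := by
    intro u hu a b
    have h1 := hu ![b, a]
    rw [lift_gword] at h1
    exact eq_inv_of_mul_eq_one_left h1
  have hS : ∀ (u : FreeGroup (Fin 2)), Law (gword u m c) H → ∀ a b : H,
      FreeGroup.lift ![b, a] u ∈
      Subgroup.closure {g | ∃ i : ℕ, 1 ≤ i ∧ i ≤ max m 2 ∧ g = b ^ i * a * (b ^ i)⁻¹} := by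
    intro u hu a b
    rw [hlaw u hu]
    refine Subgroup.inv_mem _ (lift_mem _ _ (fun i => ?_) c)
    refine hT a b ((i : ℕ) + 1) (by omega) ?_
    have := i.2
    have := le_max_left m 2
    omega
  have hY : ∀ (u : FreeGroup (Fin 2)), Law (gword u m c) H → ∀ Y : Subgroup H, Y.Normal →
      ∀ a ∈ Y, ∀ b : H, FreeGroup.lift ![b, a] u ∈ ⁅Y, Y⁆ := by
    intro u hu Y hYn a ha b
    rw [hlaw u hu]
    exact Subgroup.inv_mem _ (lift_mem_comm Y _ (fun i => hYn.conj_mem a ha _) c hc)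
  have hB : ∀ a b : H, FreeGroup.lift ![b, a] wordB = ⁅a, b ^ 2⁆ := by
    intro a b
    unfold wordB
    rw [map_commutatorElement, map_pow, FreeGroup.lift_apply_of, FreeGroup.lift_apply_of]
    rfl
  have hC : ∀ a b : H, FreeGroup.lift ![b, a] wordC = ⁅⁅a, b⁆, b⁆ := by
    intro a b
    unfold wordC
    rw [map_commutatorElement, map_commutatorElement, FreeGroup.lift_apply_of,
      FreeGroup.lift_apply_of]
    rfl
  refine ⟨fun hL => ⟨fun a b => ?_, fun Y hYn y hy x => ?_⟩,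
    fun hL => ⟨fun a b => ?_, fun Y hYn y hy x => ?_⟩⟩
  · have h1 := hS wordB hL a b
    rw [hB] at h1
    have h2 := hT a b 2 (by omega) (le_max_right m 2)
    have h3 : a = ⁅a, b ^ 2⁆ * (b ^ 2 * a * (b ^ 2)⁻¹) := by
      rw [commutatorElement_def]
      group
    have h4 := Subgroup.mul_mem _ h1 h2
    rw [← h3] at h4
    exact h4
  · have h1 := hY wordB hL Y hYn y hy x
    rwa [hB] at h1
  · have h1 := hS wordC hL a b
    rw [hC] at h1
    have h2 := hT a b 2 (by omega) (le_max_right m 2)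
    have h3 := hT a b 1 le_rfl (by
      have := le_max_right m 2
      omega)
    have h4 : a = ⁅⁅a, b⁆, b⁆ * ((b ^ 1 * a * (b ^ 1)⁻¹)⁻¹ * (b ^ 2 * a * (b ^ 2)⁻¹) *
        (b ^ 1 * a * (b ^ 1)⁻¹)⁻¹)⁻¹ := by
      rw [commutatorElement_def, commutatorElement_def]
      group
    have h5 := Subgroup.mul_mem _ h1 (Subgroup.inv_mem _ (Subgroup.mul_mem _
      (Subgroup.mul_mem _ (Subgroup.inv_mem _ h3) h2) (Subgroup.inv_mem _ h3)))
    rw [← h4] at h5
    exact h5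
  · have h1 := hY wordC hL Y hYn y hy x
    rwa [hC] at h1

end Pool.Agent.H44.GW
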